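import Mathlib
import Pool.Agent.R504.SemiPart
import Pool.Agent.Results.MP_f0b429_co.EventuallySmaller

set_option autoImplicit false

/-!
# The proportion of partitions that come from numerical semigroups tends to zero

Let `c_i` be the number of parts equal to `i` of the partition `φ(S)` of a numerical set `S`, and
`s_0 = 0 < s_1 < s_2 < …` the elements of `S`. Then `s_j = j + c_1 + … + c_j`. If `S` is closed under
addition, `2 s_1 = s_j` for some `j ≥ 2`, that is, `c_1 + 2 = j + c_2 + … + c_j`.

For a fixed `j` at most `p(n)` partitions of size at most `n` have this property, since `c_1` is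
determined by the other parts. If it holds for some `j ≥ K`, then `c_1 ≥ c_2 + … + c_K`; adding ones to
the parts `2, …, K` one sees that at most `2 P(n + K) / (K + 1)` partitions of size at most `n` have
this property. Finally `p(n) / P(n) → 0`, because almost all partitions of `n` have many different
parts, and removing one of them gives a smaller partition.
-/

namespace Pool.Agent.Results.MP_8c5ed8_co.ProportionZero

open Finset Pool.Agent.R504.SemiPart

/-- The partition `φ(S)` (as a multiset of parts) attached to a set `S` of natural numbers with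
finite complement: one part `#{s ∈ S : s < g}` for each gap `g` of `S`. -/
noncomputable def phi (S : Set ℕ) (h : Sᶜ.Finite) : Multiset ℕ :=
  h.toFinset.val.map fun g => Set.ncard {s | s ∈ S ∧ s < g}

/-- `m` is associated to a numerical semigroup: `m = φ(S)` for a set `S` with finite complement which
contains `0` and is closed under addition. -/
def FromSemigroup (m : Multiset ℕ) : Prop :=
  ∃ (S : Set ℕ) (h : Sᶜ.Finite), 0 ∈ S ∧ (∀ x ∈ S, ∀ y ∈ S, x + y ∈ S) ∧ m = phi S h

/-- `P(n)`, the number of partitions of size at most `n` -/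
def P (n : ℕ) : ℕ := ∑ k ∈ range (n + 1), Fintype.card (Nat.Partition k)

open Classical in
/-- `S'(n)`, the number of partitions of size at most `n` associated to numerical semigroups -/
noncomputable def S' (n : ℕ) : ℕ :=
  ∑ k ∈ range (n + 1), (univ.filter fun l : Nat.Partition k => FromSemigroup l.parts).card

/-! ### The condition -/

section cond

variable {S : Set ℕ}

/-- the number of the elements of `S` below `x` -/
noncomputable def C (S : Set ℕ) (x : ℕ) : ℕ := Set.ncard {s | s ∈ S ∧ s < x}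

open Classical in
lemma C_eq (x : ℕ) : C S x = ((range x).filter (· ∈ S)).card := by
  unfold C
  rw [← Set.ncard_coe_finset]
  congr 1
  ext s
  simp only [Set.mem_ofPred_eq, coe_filter, mem_range]
  tauto

lemma C_mono {x y : ℕ} (h : x ≤ y) : C S x ≤ C S y := by
  classical
  rw [C_eq, C_eq]
  apply card_le_card
  intro s hs
  rw [mem_filter, mem_range] at *
  exact ⟨by omega, hs.2⟩

lemma C_succ {x : ℕ} (h : x ∈ S) : C S (x + 1) = C S x + 1 := by
  classical
  rw [C_eq, C_eq, range_add_one, filter_insert, if_pos h, card_insert_of_notMem]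
  rw [mem_filter, mem_range]
  omega

lemma elem_eq (hfin : Sᶜ.Finite) {x : ℕ} (hx : x ∈ S) :
    x = C S x + (phi S hfin).countP (· ≤ C S x) := by
  classical
  have h1 : ((range x).filter (· ∈ S)).card + ((range x).filter (fun s => ¬ s ∈ S)).card = x := by
    rw [card_filter_add_card_filter_not, card_range]
  have h2 : (range x).filter (fun s => ¬ s ∈ S) = hfin.toFinset.filter (fun g => C S g ≤ C S x) := by
    ext g
    rw [mem_filter, mem_filter, mem_range, Set.Finite.mem_toFinset, Set.mem_compl_iff]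
    constructor
    · rintro ⟨h3, h4⟩
      exact ⟨h4, C_mono h3.le⟩
    · rintro ⟨h3, h4⟩
      refine ⟨?_, h3⟩
      by_contra h5
      rw [not_lt] at h5
      rcases h5.eq_or_lt with h6 | h6
      · rw [h6] at hx; exact h3 hx
      · have h7 := C_mono (S := S) (Nat.succ_le_of_lt h6)
        rw [Nat.succ_eq_add_one, C_succ hx] at h7
        omega
  have h3 : (phi S hfin).countP (· ≤ C S x) =
      (hfin.toFinset.filter (fun g => C S g ≤ C S x)).card := by
    unfold phi
    rw [Multiset.countP_map]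
    rfl
  rw [h3, ← h2, C_eq]
  exact h1.symm

lemma phi_pos (h0 : 0 ∈ S) (hfin : Sᶜ.Finite) : ∀ i ∈ phi S hfin, 0 < i := by
  intro i hi
  unfold phi at hi
  obtain ⟨g, hg, rfl⟩ := Multiset.mem_map.1 hi
  have hg' : g ∉ S := by
    have : g ∈ hfin.toFinset := hg
    rwa [Set.Finite.mem_toFinset, Set.mem_compl_iff] at this
  have hg0 : g ≠ 0 := fun h => hg' (h ▸ h0)
  have h1 : C S (0 + 1) ≤ C S g := C_mono (by omega)
  rw [C_succ h0] at h1
  change 0 < C S g
  omega

lemma countP_le {m : Multiset ℕ} (hm : ∀ i ∈ m, 0 < i) {j : ℕ} (hj : 1 ≤ j) :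
    m.countP (· ≤ j) = m.count 1 + w j m := by
  unfold w
  rw [Multiset.count]
  induction m using Multiset.induction_on with
  | empty => simp
  | cons a s ih =>
    have ih' := ih (fun i hi => hm i (Multiset.mem_cons_of_mem hi))
    have ha := hm a (Multiset.mem_cons_self a s)
    rw [Multiset.countP_cons, Multiset.countP_cons, Multiset.countP_cons, ih']
    split_ifs <;> omega

/-- Step A. -/
lemma condition (h0 : 0 ∈ S) (hadd : ∀ x ∈ S, ∀ y ∈ S, x + y ∈ S) (hfin : Sᶜ.Finite) :
    ∃ j, 2 ≤ j ∧ (phi S hfin).count 1 + 2 = j + w j (phi S hfin) := by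
  classical
  have hex : ∃ a, 0 < a ∧ a ∈ S := by
    by_contra hcon
    push Not at hcon
    have : Set.Ioi 0 ⊆ Sᶜ := fun a ha => hcon a ha
    exact (Set.Ioi_infinite 0) (hfin.subset this)
  set a := Nat.find hex with ha
  obtain ⟨ha0, haS⟩ := Nat.find_spec hex
  have hmin : ∀ b, b < a → ¬ (0 < b ∧ b ∈ S) := fun b hb => Nat.find_min hex hb
  rw [← ha] at ha0 haS
  have hCa : C S a = 1 := by
    rw [C_eq, card_eq_one]
    refine ⟨0, ?_⟩
    ext s
    rw [mem_filter, mem_range, mem_singleton]
    constructor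
    · rintro ⟨h1, h2⟩
      by_contra h3
      exact hmin s h1 ⟨Nat.pos_of_ne_zero h3, h2⟩
    · rintro rfl
      exact ⟨ha0, h0⟩
  have h2a : a + a ∈ S := hadd a haS a haS
  have hC2 : 2 ≤ C S (a + a) := by
    have : C S (a + 1) ≤ C S (a + a) := C_mono (by omega)
    rw [C_succ haS, hCa] at this
    exact this
  have e1 := elem_eq hfin haS
  have e2 := elem_eq hfin h2a
  have hpos := phi_pos h0 hfin
  rw [countP_le hpos (by omega)] at e1 e2
  have hw1 : w (C S a) (phi S hfin) = 0 := by
    rw [hCa]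
    unfold w
    rw [Multiset.countP_eq_zero]
    intro i _
    omega
  refine ⟨C S (a + a), hC2, ?_⟩
  omega

end cond

/-! ### The number of partitions of `n` is small compared with `P(n)` -/

lemma sum_distinct (n : ℕ) : ∑ m ∈ QQ n, m.toFinset.card ≤ (PP n).card := by
  classical
  rw [← Finset.card_sigma]
  apply card_le_card_of_injOn (fun t => t.1.erase t.2)
  · rintro ⟨m, x⟩ ht
    rw [Finset.mem_coe, mem_sigma] at ht
    obtain ⟨hm, hx⟩ := ht
    dsimp only at hm hx ⊢
    rw [mem_QQ] at hm
    rw [Multiset.mem_toFinset] at hx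
    rw [Finset.mem_coe, mem_PP]
    refine ⟨fun i hi => hm.1 i (Multiset.mem_of_mem_erase hi), ?_⟩
    have := congrArg Multiset.sum (Multiset.cons_erase hx)
    rw [Multiset.sum_cons] at this
    omega
  · rintro ⟨m, x⟩ ht ⟨m', x'⟩ ht' heq
    rw [Finset.mem_coe, mem_sigma] at ht ht'
    obtain ⟨hm, hx⟩ := ht
    obtain ⟨hm', hx'⟩ := ht'
    dsimp only at hm hx hm' hx' heq
    rw [mem_QQ] at hm hm'
    rw [Multiset.mem_toFinset] at hx hx'
    have e1 := congrArg Multiset.sum (Multiset.cons_erase hx)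
    have e2 := congrArg Multiset.sum (Multiset.cons_erase hx')
    rw [Multiset.sum_cons] at e1 e2
    rw [heq] at e1
    have hxx : x = x' := by omega
    subst hxx
    have : m = m' := by rw [← Multiset.cons_erase hx, ← Multiset.cons_erase hx', heq]
    subst this
    rfl

lemma few_distinct (n T : ℕ) :
    ((QQ n).filter fun m => m.toFinset.card ≤ T).card ≤ (T + 1) * ((n + 1) ^ 2) ^ T := by
  classical
  set U := range (n + 1) ×ˢ range (n + 1) with hU
  have hUc : U.card = (n + 1) ^ 2 := by rw [hU, card_product, card_range, sq]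
  have h1 : ((QQ n).filter fun m => m.toFinset.card ≤ T).card ≤
      ((range (T + 1)).biUnion fun i => powersetCard i U).card := by
    apply card_le_card_of_injOn (fun m => m.toFinset.image fun x => (x, m.count x))
    · intro m hm
      have hm' := mem_filter.1 (Finset.mem_coe.1 hm)
      rw [mem_QQ] at hm'
      obtain ⟨⟨hpos, hsum⟩, hT⟩ := hm'
      rw [Finset.mem_coe, mem_biUnion]
      refine ⟨m.toFinset.card, mem_range.2 (by omega), ?_⟩
      rw [mem_powersetCard]
      constructor
      · intro t ht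
        obtain ⟨x, hx, rfl⟩ := mem_image.1 ht
        rw [Multiset.mem_toFinset] at hx
        have h2 : x * m.count x ≤ n := by
          have h3 : Multiset.replicate (m.count x) x ≤ m := Multiset.le_count_iff_replicate_le.1 le_rfl
          obtain ⟨u, hu⟩ := Multiset.le_iff_exists_add.1 h3
          have := congrArg Multiset.sum hu
          rw [Multiset.sum_add, Multiset.sum_replicate, smul_eq_mul] at this
          have : m.count x * x ≤ n := by omega
          rwa [mul_comm]
        have hx0 := hpos x hx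
        have hc0 : 0 < m.count x := Multiset.count_pos.2 hx
        rw [hU, mem_product, mem_range, mem_range]
        constructor
        · have : x ≤ x * m.count x := Nat.le_mul_of_pos_right x hc0
          dsimp only; omega
        · have : m.count x ≤ x * m.count x := Nat.le_mul_of_pos_left _ hx0
          dsimp only; omega
      · apply card_image_of_injective
        intro x x' h
        exact (Prod.mk.inj h).1
    · intro m _ m' _ heq
      dsimp only at heq
      ext x
      by_cases hx : x ∈ m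
      · have : (x, m.count x) ∈ m'.toFinset.image fun x => (x, m'.count x) := by
          rw [← heq]
          exact mem_image.2 ⟨x, Multiset.mem_toFinset.2 hx, rfl⟩
        obtain ⟨z, _, hz⟩ := mem_image.1 this
        have h1 := (Prod.mk.inj hz).1
        have h2 := (Prod.mk.inj hz).2
        rw [h1] at h2
        exact h2.symm
      · have hx' : x ∉ m' := by
          intro hx'
          have : (x, m'.count x) ∈ m.toFinset.image fun x => (x, m.count x) := by
            rw [heq]
            exact mem_image.2 ⟨x, Multiset.mem_toFinset.2 hx', rfl⟩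
          obtain ⟨z, hz1, hz⟩ := mem_image.1 this
          have h1 := (Prod.mk.inj hz).1
          rw [h1, Multiset.mem_toFinset] at hz1
          exact hx hz1
        rw [Multiset.count_eq_zero_of_notMem hx, Multiset.count_eq_zero_of_notMem hx']
  refine h1.trans (card_biUnion_le.trans ?_)
  calc ∑ i ∈ range (T + 1), (powersetCard i U).card ≤ ∑ _i ∈ range (T + 1), ((n + 1) ^ 2) ^ T := by
        apply sum_le_sum
        intro i hi
        rw [mem_range] at hi
        rw [card_powersetCard, hUc]
        refine (Nat.choose_le_pow _ _).trans ?_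
        exact Nat.pow_le_pow_right (by positivity) (by omega)
    _ = (T + 1) * ((n + 1) ^ 2) ^ T := by rw [sum_const, card_range, smul_eq_mul]

lemma q_bound (n T : ℕ) :
    T * (QQ n).card ≤ (PP n).card + T * ((T + 1) * ((n + 1) ^ 2) ^ T) := by
  classical
  have h1 := sum_distinct n
  have h2 := few_distinct n T
  have h3 : (QQ n).card = ((QQ n).filter fun m => m.toFinset.card ≤ T).card +
      ((QQ n).filter fun m => ¬ m.toFinset.card ≤ T).card := by
    rw [card_filter_add_card_filter_not]
  have h4 : T * ((QQ n).filter fun m => ¬ m.toFinset.card ≤ T).card ≤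
      ∑ m ∈ QQ n, m.toFinset.card := by
    calc T * ((QQ n).filter fun m => ¬ m.toFinset.card ≤ T).card
        = ∑ _m ∈ (QQ n).filter (fun m => ¬ m.toFinset.card ≤ T), T := by
          rw [sum_const, smul_eq_mul, mul_comm]
      _ ≤ ∑ m ∈ (QQ n).filter (fun m => ¬ m.toFinset.card ≤ T), m.toFinset.card := by
          apply sum_le_sum
          intro m hm
          have := (mem_filter.1 hm).2
          omega
      _ ≤ ∑ m ∈ QQ n, m.toFinset.card :=
          sum_le_sum_of_subset_of_nonneg (filter_subset _ _) fun _ _ _ => Nat.zero_le _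
  rw [h3, mul_add]
  have h5 := Nat.mul_le_mul_left T h2
  omega

lemma two_pow_le (n m : ℕ) (h : 3 * m ^ 2 ≤ n) : 2 ^ m ≤ (QQ n).card := by
  refine (Pool.Agent.Results.MP_f0b429_co.EventuallySmaller.pStar_lower n m h).trans ?_
  rw [card_QQ]
  unfold Pool.Agent.Results.MP_f0b429_co.EventuallySmaller.pStar
  exact card_le_univ _

lemma QQ_le_PP (n : ℕ) : (QQ n).card ≤ (PP n).card := by
  apply card_le_card
  intro m hm
  rw [mem_QQ] at hm
  rw [mem_PP]
  exact ⟨hm.1, hm.2.le⟩

lemma PP_pos (n : ℕ) : 0 < (PP n).card := by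
  apply card_pos.2
  refine ⟨0, ?_⟩
  rw [mem_PP]
  simp

open Filter Topology

lemma small_tendsto (T : ℕ) : Tendsto (fun n : ℕ => (((n + 1) ^ 2) ^ T : ℕ) / ((PP n).card : ℝ))
    atTop (𝓝 0) := by
  -- with `k = √(n / 3)`
  have hk : Tendsto (fun n : ℕ => Nat.sqrt (n / 3) + 1) atTop atTop := by
    apply tendsto_atTop.2
    intro b
    filter_upwards [eventually_ge_atTop (3 * b ^ 2)] with n hn
    have h1 : b ^ 2 ≤ n / 3 := by omega
    have h2 : b ≤ Nat.sqrt (n / 3) := Nat.le_sqrt'.2 h1
    omega
  have h1 : Tendsto (fun k : ℕ => ((k : ℝ) ^ (4 * T) / 2 ^ k)) atTop (𝓝 0) :=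
    tendsto_pow_const_div_const_pow_of_one_lt (4 * T) (by norm_num)
  have h2 := (h1.comp hk).const_mul (3 ^ (2 * T) * 2 : ℝ)
  rw [mul_zero] at h2
  apply squeeze_zero (g := fun n : ℕ => (3 ^ (2 * T) * 2 : ℝ) *
    ((fun k : ℕ => ((k : ℝ) ^ (4 * T) / 2 ^ k)) ∘ fun n : ℕ => Nat.sqrt (n / 3) + 1) n) _ _ h2
  · intro n; positivity
  · intro n
    simp only [Function.comp]
    set k := Nat.sqrt (n / 3) with hkdef
    have h3 : 3 * k ^ 2 ≤ n := by
      have h3 : k * k ≤ n / 3 := Nat.sqrt_le _
      have h4 : 3 * (n / 3) ≤ n := Nat.mul_div_le n 3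
      nlinarith
    have h4 : n + 1 ≤ 3 * (k + 1) ^ 2 := by
      have h5 : n / 3 < (k + 1) * (k + 1) := Nat.lt_succ_sqrt _
      have : (k + 1) ^ 2 = (k + 1) * (k + 1) := sq _
      omega
    have h5 : (2 : ℝ) ^ k ≤ (PP n).card := by
      have := (two_pow_le n k h3).trans (QQ_le_PP n)
      exact_mod_cast this
    have h6 : ((((n + 1) ^ 2) ^ T : ℕ) : ℝ) ≤ 3 ^ (2 * T) * (((k + 1 : ℕ)) : ℝ) ^ (4 * T) := by
      have h7 : ((n + 1) ^ 2) ^ T ≤ 3 ^ (2 * T) * (k + 1) ^ (4 * T) := by
        calc ((n + 1) ^ 2) ^ T ≤ ((3 * (k + 1) ^ 2) ^ 2) ^ T :=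
              Nat.pow_le_pow_left (Nat.pow_le_pow_left h4 2) T
          _ = 3 ^ (2 * T) * (k + 1) ^ (4 * T) := by
              rw [mul_pow, mul_pow, ← pow_mul, ← pow_mul, ← pow_mul,
                show 2 * (2 * T) = 4 * T by ring]
      exact_mod_cast h7
    calc ((((n + 1) ^ 2) ^ T : ℕ) : ℝ) / ((PP n).card : ℝ)
        ≤ (3 ^ (2 * T) * (((k + 1 : ℕ)) : ℝ) ^ (4 * T)) / 2 ^ k :=
          div_le_div₀ (by positivity) h6 (by positivity) h5
      _ = 3 ^ (2 * T) * 2 * ((((k + 1 : ℕ)) : ℝ) ^ (4 * T) / 2 ^ (k + 1)) := by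
          rw [pow_succ (2 : ℝ) k]
          field_simp

/-- `p(n) / P(n) → 0` -/
lemma ratio_tendsto : Tendsto (fun n : ℕ => ((QQ n).card : ℝ) / (PP n).card) atTop (𝓝 0) := by
  rw [Metric.tendsto_atTop]
  intro ε hε
  obtain ⟨T, hT⟩ := exists_nat_gt (2 / ε)
  have hT0 : (0 : ℝ) < T := lt_trans (by positivity) hT
  have h1 := ((small_tendsto T).const_mul ((T : ℝ) + 1))
  rw [mul_zero] at h1
  have h2 := (h1.eventually (gt_mem_nhds (show (0 : ℝ) < ε / 2 by positivity)))
  obtain ⟨N, hN⟩ := eventually_atTop.1 h2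
  refine ⟨N, fun n hn => ?_⟩
  have h3 := hN n hn
  have hP : (0 : ℝ) < (PP n).card := by exact_mod_cast PP_pos n
  rw [Real.dist_eq, sub_zero, abs_of_nonneg (by positivity)]
  have h4 : (T : ℝ) * (QQ n).card ≤ (PP n).card + T * ((T + 1) * ((((n + 1) ^ 2) ^ T : ℕ) : ℝ)) := by
    exact_mod_cast q_bound n T
  have h5 : ((QQ n).card : ℝ) / (PP n).card ≤ 1 / T +
      ((T : ℝ) + 1) * ((((n + 1) ^ 2) ^ T : ℕ) / ((PP n).card : ℝ)) := by
    rw [div_le_iff₀ hP]
    have e1 : (1 / (T : ℝ) + ((T : ℝ) + 1) * ((((n + 1) ^ 2) ^ T : ℕ) / ((PP n).card : ℝ))) *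
        (PP n).card = ((PP n).card + T * ((T + 1) * ((((n + 1) ^ 2) ^ T : ℕ) : ℝ))) / T := by
      field_simp
    rw [e1, le_div_iff₀ hT0]
    linarith
  have h6 : 1 / (T : ℝ) < ε / 2 := by
    rw [div_lt_iff₀ hT0]
    rw [div_lt_iff₀ hε] at hT
    linarith
  linarith

lemma PP_succ (n : ℕ) : (PP (n + 1)).card = (PP n).card + (QQ (n + 1)).card := by
  rw [card_PP, card_PP, sum_range_succ]

/-- `P(n + K) / P(n) → 1` -/
lemma shift_tendsto (K : ℕ) :
    Tendsto (fun n : ℕ => ((PP (n + K)).card : ℝ) / (PP n).card) atTop (𝓝 1) := by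
  have h1 : Tendsto (fun n : ℕ => ((PP (n + 1)).card : ℝ) / (PP n).card) atTop (𝓝 1) := by
    have h2 := (tendsto_add_atTop_iff_nat 1).2 ratio_tendsto
    have h3 := (tendsto_const_nhds (x := (1 : ℝ))).sub h2
    rw [sub_zero] at h3
    have h4 := h3.inv₀ one_ne_zero
    rw [inv_one] at h4
    refine h4.congr fun n => ?_
    have hP : (0 : ℝ) < (PP n).card := by exact_mod_cast PP_pos n
    have hP1 : (0 : ℝ) < (PP (n + 1)).card := by exact_mod_cast PP_pos (n + 1)
    have h5 : ((PP (n + 1)).card : ℝ) = (PP n).card + (QQ (n + 1)).card := by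
      exact_mod_cast PP_succ n
    have h6 : (1 : ℝ) - (QQ (n + 1)).card / (PP (n + 1)).card =
        (PP n).card / (PP (n + 1)).card := by
      rw [eq_div_iff hP1.ne', sub_mul, div_mul_cancel₀ _ hP1.ne']
      linarith
    rw [h6, inv_div]
  induction K with
  | zero =>
    refine tendsto_const_nhds.congr fun n => ?_
    have hP : (0 : ℝ) < (PP n).card := by exact_mod_cast PP_pos n
    rw [add_zero, div_self hP.ne']
  | succ K ih =>
    have h2 := ih.mul ((h1.comp (tendsto_add_atTop_nat K)))
    rw [mul_one] at h2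
    refine h2.congr fun n => ?_
    have hP : (0 : ℝ) < (PP n).card := by exact_mod_cast PP_pos n
    have hP1 : (0 : ℝ) < (PP (n + K)).card := by exact_mod_cast PP_pos (n + K)
    simp only [Function.comp]
    rw [← add_assoc]
    field_simp

/-! ### The result -/

lemma P_eq (n : ℕ) : P n = (PP n).card := by
  rw [card_PP]
  unfold P
  exact sum_congr rfl fun k _ => (card_QQ k).symm

open Classical in
lemma S'_eq (n : ℕ) : S' n = ((PP n).filter FromSemigroup).card := by
  unfold S' PP
  rw [filter_biUnion, card_biUnion]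
  · apply sum_congr rfl
    intro k _
    unfold QQ
    rw [filter_image, card_image_of_injective _ (fun a b h => Nat.Partition.ext h)]
  · intro i _ j _ hij
    rw [Function.onFun, Finset.disjoint_left]
    intro m h1 h2
    have h1' := (mem_QQ.1 (mem_filter.1 h1).1).2
    have h2' := (mem_QQ.1 (mem_filter.1 h2).1).2
    exact hij (h1'.symm.trans h2')

lemma main_bound {K : ℕ} (hK : 2 ≤ K) (n : ℕ) :
    (K + 1) * S' n ≤ (K + 1) ^ 2 * (QQ n).card + 2 * (PP (n + K)).card := by
  classical
  rw [S'_eq]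
  apply card_union hK n _ (filter_subset _ _)
  intro m hm
  obtain ⟨S, hfin, h0, hadd, rfl⟩ := (mem_filter.1 hm).2
  exact condition h0 hadd hfin

/-- **The result.** `S'(n) / P(n) → 0`. -/
theorem result : Tendsto (fun n : ℕ => (S' n : ℝ) / P n) atTop (𝓝 0) := by
  rw [Metric.tendsto_atTop]
  intro ε hε
  obtain ⟨K₀, hK₀⟩ := exists_nat_gt (8 / ε)
  set K := K₀ + 2 with hKdef
  have hK2 : 2 ≤ K := by omega
  have hK : 8 / ε < (K : ℝ) + 1 := by
    rw [hKdef]; push_cast; linarith
  have hK0 : (0 : ℝ) < (K : ℝ) + 1 := by positivity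
  have h1 := ratio_tendsto.eventually
    (gt_mem_nhds (show (0 : ℝ) < ε / (2 * (K + 1)) by positivity))
  have h2 := (shift_tendsto K).eventually (gt_mem_nhds (show (1 : ℝ) < 2 by norm_num))
  obtain ⟨N, hN⟩ := eventually_atTop.1 (h1.and h2)
  refine ⟨N, fun n hn => ?_⟩
  obtain ⟨h3, h4⟩ := hN n hn
  have hP : (0 : ℝ) < (PP n).card := by exact_mod_cast PP_pos n
  rw [Real.dist_eq, sub_zero, abs_of_nonneg (by positivity), P_eq, div_lt_iff₀ hP]
  have h5 : ((K : ℝ) + 1) * S' n ≤ (K + 1) ^ 2 * (QQ n).card + 2 * (PP (n + K)).card := by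
    exact_mod_cast main_bound hK2 n
  rw [div_lt_iff₀ hP] at h3 h4
  have h6 : ((K : ℝ) + 1) ^ 2 * (QQ n).card ≤ (K + 1) * (ε / 2) * (PP n).card := by
    have : ((K : ℝ) + 1) ^ 2 * (QQ n).card ≤ (K + 1) ^ 2 * (ε / (2 * (K + 1)) * (PP n).card) :=
      mul_le_mul_of_nonneg_left h3.le (by positivity)
    refine this.trans (le_of_eq ?_)
    field_simp
  have h7 : (4 : ℝ) < (K + 1) * (ε / 2) := by
    rw [div_lt_iff₀ hε] at hK
    linarith
  have h8 : ((K : ℝ) + 1) * S' n < (K + 1) * (ε * (PP n).card) := by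
    have h9 : 2 * ((PP (n + K)).card : ℝ) < 4 * (PP n).card := by linarith
    have h10 : (4 : ℝ) * (PP n).card < (K + 1) * (ε / 2) * (PP n).card :=
      mul_lt_mul_of_pos_right h7 hP
    nlinarith
  exact lt_of_mul_lt_mul_left h8 hK0.le

end Pool.Agent.Results.MP_8c5ed8_co.ProportionZero
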